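import Pool.Agent.H.MP_830f5a_co.K

/-! The illumination number of a cyclic polytope: a formula in the parameters, and the exact set
of values it takes for given `d` and `n`. -/

namespace Pool.Agent.Results.MP_830f5a_co.Formula
open Pool.Agent.H.MP_830f5a_co

theorem result (d : ℕ) (hd : 2 ≤ d) :
    (∀ T : Finset ℝ, d + 1 ≤ T.card → IsLeast {m : ℕ | IllumBy (cyclic d T) m} (greedy d T)) ∧
    ∀ n : ℕ, d + 1 ≤ n →
      {k : ℕ | ∃ T : Finset ℝ, T.card = n ∧ IsLeast {m : ℕ | IllumBy (cyclic d T) m} k} =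
        Set.Icc (d + 1) (min n (2 * d - 1)) := by
  refine ⟨fun T hT => isLeast_greedy hd hT, fun n hn => ?_⟩
  ext k
  constructor
  · rintro ⟨T, rfl, hk⟩
    refine ⟨succ_le_of_illumBy hd (Finset.card_pos.1 (by omega)) hk.1, ?_⟩
    rw [hk.unique (isLeast_greedy hd hn)]
    exact greedy_le hd (by omega)
  · rintro ⟨h1, h2⟩
    exact exists_value hd h1 (h2.trans (min_le_left _ _)) (h2.trans (min_le_right _ _))

end Pool.Agent.Results.MP_830f5a_co.Formula
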